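import Pool.Agent.T9h11.NF.Spec2

/-!
# Pieces `EquiXK` and `TwistXK`: residue classes and additive characters in one slot
-/

set_option autoImplicit false
set_option linter.unusedSectionVars false

namespace Pool.Agent.T9h65.NF

open Finset NumberField Pool.Agent.T9h11.NF Pool.Agent.T9h57.QD

section gen

variable {K : Type} [Field K] [NumberField K]

lemma nrm_smul {D : ℝ} (hD : 0 < D) (z : Sp K) :
    nrm (D⁻¹ • z) = nrm z / D ^ Module.finrank ℚ K := by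
  unfold nrm
  have : ∀ v : InfinitePlace K, ‖(D⁻¹ • z) v‖ ^ v.mult = ‖z v‖ ^ v.mult / D ^ v.mult := by
    intro v
    rw [Pi.smul_apply, norm_smul, Real.norm_of_nonneg (inv_nonneg.2 hD.le), mul_pow, inv_pow]
    field_simp
  rw [prod_congr rfl (fun v _ => this v), prod_div_distrib, prod_pow_eq_pow_sum,
    InfinitePlace.sum_mult_eq]

lemma nrm_nonneg (z : Sp K) : 0 ≤ nrm z := prod_nonneg fun v _ => by positivity

lemma fin_ball (hL : LatK K) {B : ℝ} (hB : 0 ≤ B) : {x : 𝓞 K | ‖E (x : K)‖ ≤ B}.Finite := by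
  obtain ⟨C, -, h, -⟩ := hL
  by_contra hinf
  obtain ⟨n, hn⟩ := exists_nat_gt (C * (B + 1) ^ Module.finrank ℚ K)
  obtain ⟨t, ht1, ht2⟩ := Set.Infinite.exists_subset_card_eq hinf n
  have := h B t hB (fun x hx => ht1 hx)
  rw [ht2] at this
  linarith

lemma nm_ge {I : Ideal (𝓞 K)} (hI : I ≠ ⊥) : 1 ≤ nm I := by
  unfold nm
  have h := Ideal.absNorm_ne_zero_iff_mem_nonZeroDivisors.2
    (mem_nonZeroDivisors_iff_ne_zero.2 hI)
  exact_mod_cast Nat.one_le_iff_ne_zero.2 h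

/-- the estimate for one slot -/
theorem slot (hA : AbelK K) (hL : LatK K) {L B : ℝ} (hL0 : 0 ≤ L) (hB : 0 ≤ B) :
    ∃ C : ℝ, 1 ≤ C ∧ ∀ T : Ideal (𝓞 K), T ≠ ⊥ → ∀ [Fintype (𝓞 K ⧸ T)] (g : 𝓞 K ⧸ T → ℂ),
      ∑ q, g q = 0 → (∀ q, ‖g q‖ ≤ 2) → ∀ F : Sp K → ℝ, LipF L B F → ∀ D : ℝ, C * nm T ≤ D →
      ∀ S : Finset (𝓞 K), (∀ x : 𝓞 K, g (Ideal.Quotient.mk T x) ≠ 0 →
        F (D⁻¹ • E (x : K)) ≠ 0 → x ∈ S) →
      ‖∑ x ∈ S, g (Ideal.Quotient.mk T x) * (F (D⁻¹ • E (x : K)) : ℂ)‖ ≤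
        C * nm T * D ^ Module.finrank ℚ K / D := by
  classical
  obtain ⟨CA, hCA, hA⟩ := hA
  have hL' := hL
  obtain ⟨CL, hCL, hcount, -⟩ := hL'
  refine ⟨CA + CA * L * 2 * (CL * (B + 2) ^ Module.finrank ℚ K), ?_, ?_⟩
  · have : 0 ≤ CA * L * 2 * (CL * (B + 2) ^ Module.finrank ℚ K) := by positivity
    linarith
  intro T hT _ g hg0 hg2 F hF D hD S hS
  set d := Module.finrank ℚ K with hd
  have hd1 : 1 ≤ d := Module.finrank_pos
  have hT1 : 1 ≤ nm T := nm_ge hT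
  set R : ℝ := CA * L * 2 * (CL * (B + 2) ^ d) with hR
  have hR0 : 0 ≤ R := by positivity
  have hCAD : CA * nm T ≤ D := by nlinarith
  have hD1 : 1 ≤ D := by nlinarith
  have hD0 : 0 < D := by linarith
  have hF' : LipF (L / D) (B * D) (fun z => F (D⁻¹ • z)) := by
    constructor
    · intro z z'
      refine (hF.1 _ _).trans ?_
      rw [← smul_sub, norm_smul, Real.norm_of_nonneg (inv_nonneg.2 hD0.le)]
      apply le_of_eq
      field_simp
    · intro z hz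
      have := hF.2 _ hz
      rw [norm_smul, Real.norm_of_nonneg (inv_nonneg.2 hD0.le)] at this
      rw [inv_mul_le_iff₀ hD0] at this
      linarith
  have hBD : 0 ≤ B * D + CA * nm T := by positivity
  set S' : Finset (𝓞 K) := (fin_ball hL hBD).toFinset with hS'
  have hmem : ∀ x : 𝓞 K, x ∈ S' ↔ ‖E (x : K)‖ ≤ B * D + CA * nm T := by
    intro x
    rw [hS', Set.Finite.mem_toFinset]; rfl
  have h1 := hA T (nm T) hT (by linarith) (le_self_pow₀ hT1 (by omega)) g hg0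
    (fun z => F (D⁻¹ • z)) (L / D) (B * D) (by positivity) (by positivity) hF' (S ∪ S') S'
    (fun x hx => mem_union_right _ ((hmem x).2 ((hF'.2 _ hx).trans (by
      have : 0 ≤ CA * nm T := by positivity
      linarith)))) (fun x hx => (hmem x).2 hx)
  have h2 : ∑ x ∈ S ∪ S', g (Ideal.Quotient.mk T x) * (F (D⁻¹ • E (x : K)) : ℂ) =
      ∑ x ∈ S, g (Ideal.Quotient.mk T x) * (F (D⁻¹ • E (x : K)) : ℂ) := by
    symm
    apply sum_subset subset_union_left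
    intro x _ hx
    by_contra h
    have h3 := mul_ne_zero_iff.1 h
    exact hx (hS x h3.1 (by
      intro h4
      exact h3.2 (by rw [h4]; simp)))
  rw [h2] at h1
  refine h1.trans ?_
  have h3 : ∑ x ∈ S', ‖g (Ideal.Quotient.mk T x)‖ ≤ 2 * (CL * ((B + 2) * D) ^ d) := by
    calc ∑ x ∈ S', ‖g (Ideal.Quotient.mk T x)‖ ≤ ∑ _x ∈ S', (2 : ℝ) := sum_le_sum fun x _ => hg2 _
      _ = 2 * (S'.card : ℝ) := by rw [sum_const, nsmul_eq_mul, mul_comm]
      _ ≤ 2 * (CL * (B * D + CA * nm T + 1) ^ d) := by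
          have := hcount (B * D + CA * nm T) S' hBD (fun x hx => (hmem x).1 hx)
          linarith
      _ ≤ 2 * (CL * ((B + 2) * D) ^ d) := by
          have h5 : B * D + CA * nm T + 1 ≤ (B + 2) * D := by nlinarith
          have h6 : (B * D + CA * nm T + 1) ^ d ≤ ((B + 2) * D) ^ d :=
            pow_le_pow_left₀ (by linarith) h5 d
          have : CL * (B * D + CA * nm T + 1) ^ d ≤ CL * ((B + 2) * D) ^ d :=
            mul_le_mul_of_nonneg_left h6 (by linarith)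
          linarith
  calc CA * (L / D) * nm T * ∑ x ∈ S', ‖g (Ideal.Quotient.mk T x)‖ ≤
      CA * (L / D) * nm T * (2 * (CL * ((B + 2) * D) ^ d)) :=
        mul_le_mul_of_nonneg_left h3 (by positivity)
    _ = R * nm T * D ^ d / D := by rw [hR, mul_pow]; ring
    _ ≤ (CA + R) * nm T * D ^ d / D := by
        gcongr
        linarith

lemma ind_le (p : Prop) : ind p ≤ 1 := by unfold ind; split_ifs <;> norm_num

lemma ind_nn (p : Prop) : 0 ≤ ind p := by unfold ind; split_ifs <;> norm_num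

lemma ind_t {p : Prop} (h : p) : ind p = 1 := by unfold ind; rw [if_pos h]

lemma ind_f {p : Prop} (h : ¬ p) : ind p = 0 := by unfold ind; rw [if_neg h]

lemma frac_le (p : Prop) (a b : ℕ) : 0 ≤ ind p / ((a : ℝ) * b) ∧ ind p / ((a : ℝ) * b) ≤ 1 := by
  have h0 := ind_nn p
  have h1 := ind_le p
  refine ⟨by positivity, ?_⟩
  rcases Nat.eq_zero_or_pos (a * b) with h | h
  · have : (a : ℝ) * b = 0 := by exact_mod_cast h
    rw [this, div_zero]; norm_num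
  · have h2 : (1 : ℝ) ≤ (a : ℝ) * b := by exact_mod_cast h
    rw [div_le_one (by linarith)]
    linarith

lemma scale {D : ℝ} (hD : 0 < D) (ρ Ψ : Sp K → ℝ) (w : Sp K) (x : 𝓞 K) :
    ρ (D⁻¹ • E (x : K)) / nrm (D⁻¹ • E (x : K)) * Ψ ((D • w) * (D⁻¹ • E (x : K))) =
      D ^ Module.finrank ℚ K * (wl ρ D x * Ψ (w * E (x : K))) := by
  have h1 : (D • w) * (D⁻¹ • E (x : K)) = w * E (x : K) := by
    rw [smul_mul_smul_comm, mul_inv_cancel₀ hD.ne', one_smul]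
  rw [h1, nrm_smul hD, wl]
  rw [div_div_eq_mul_div]
  ring

lemma wl_nn {ρ : Sp K → ℝ} (hρ : Adm ρ) (D : ℝ) (x : 𝓞 K) : 0 ≤ wl ρ D x :=
  div_nonneg (hρ.1 _).1 (nrm_nonneg _)

/-- finiteness -/
@[instance_reducible]
noncomputable def fq {T : Ideal (𝓞 K)} (hT : T ≠ ⊥) : Fintype (𝓞 K ⧸ T) := by
  haveI := Ideal.finiteQuotientOfFreeOfNeBot T hT
  exact Fintype.ofFinite _

lemma coprime_top (M : Ideal (𝓞 K)) : IsCoprime (⊤ : Ideal (𝓞 K)) M := by
  rw [← Ideal.one_eq_top]; exact isCoprime_one_left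

end gen

variable (K : Type) [Field K] [NumberField K]

theorem equiXK : AbelK K → MeanK K → LipX K → LatK K → DivXK K → EquiXK K := by
  classical
  intro hA hMe hX hL hDv ρ Ψ M q₀ hρ hΨ hM0 hq0 hPD
  obtain ⟨L, B, hL0, hB0, hLip, -⟩ := hX ρ Ψ hρ hΨ
  obtain ⟨CZ, DZ, hCZ, hDZ, hdiv⟩ := hDv ρ M hρ hM0
  obtain ⟨C, hC, hslot⟩ := slot hA hL hL0 hB0
  have hT : M * q₀ * ⊤ ≠ ⊥ := by
    rw [Ideal.mul_top]; exact mul_ne_zero hM0 hq0
  let _ : Fintype (𝓞 K ⧸ M * q₀ * ⊤) := fq hT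
  have hT1 : 1 ≤ nm (M * q₀ * ⊤) := nm_ge hT
  set out : 𝓞 K ⧸ M * q₀ * ⊤ → 𝓞 K := Function.surjInv Ideal.Quotient.mk_surjective with hout
  have hout1 : ∀ q, Ideal.Quotient.mk (M * q₀ * ⊤) (out q) = q :=
    Function.surjInv_eq Ideal.Quotient.mk_surjective
  obtain ⟨hm1, -, -, -, hm5⟩ := hMe M q₀ ⊤ hM0 hq0 (by simp) hPD (coprime_top M) out hout1
  have hred : ∀ x : 𝓞 K, out (Ideal.Quotient.mk _ x) - x ∈ M * q₀ * ⊤ := fun x =>
    Ideal.Quotient.eq.1 (hout1 _)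
  refine ⟨CZ * (C * nm (M * q₀ * ⊤)), max DZ (C * nm (M * q₀ * ⊤)), ?_, hDZ.trans (le_max_left _ _),
    ?_⟩
  · have : 1 ≤ C * nm (M * q₀ * ⊤) := by nlinarith
    nlinarith
  intro D hD S hS κ w hκ
  have hD0 : 0 < D := by
    have := (le_max_left _ _).trans hD
    linarith
  obtain ⟨-, hZ1, -, -⟩ := hdiv D ((le_max_left _ _).trans hD) S hS
  set Z := ∑ y ∈ S, wl ρ D y with hZ
  have hZ0 : 0 < Z := lt_of_lt_of_le (by positivity) hZ1
  set g : 𝓞 K ⧸ M * q₀ * ⊤ → ℝ := fun q => ind (cop (out q) M ∧ out q - κ ∈ q₀ * ⊤) -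
      ind (cop (out q) M) / (phi q₀ * nm (⊤ : Ideal (𝓞 K))) with hg
  have hg2 : ∀ q, |g q| ≤ 2 := by
    intro q
    have h1 := ind_nn (cop (out q) M ∧ out q - κ ∈ q₀ * ⊤)
    have h2 := ind_le (cop (out q) M ∧ out q - κ ∈ q₀ * ⊤)
    have h3 := frac_le (cop (out q) M) (Nat.card (𝓞 K ⧸ q₀)ˣ) (Ideal.absNorm (⊤ : Ideal (𝓞 K)))
    have h4 : g q = ind (cop (out q) M ∧ out q - κ ∈ q₀ * ⊤) -
      ind (cop (out q) M) / ((Nat.card (𝓞 K ⧸ q₀)ˣ : ℝ) * (Ideal.absNorm (⊤ : Ideal (𝓞 K)) : ℝ)) := rfl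
    rw [h4, abs_le]
    constructor <;> linarith [h3.1, h3.2]
  have hgx : ∀ x : 𝓞 K, g (Ideal.Quotient.mk _ x) =
      ind (cop x M ∧ x - κ ∈ q₀) - ind (cop x M) / phi q₀ := by
    intro x
    have h1 : cop (out (Ideal.Quotient.mk _ x)) M ↔ cop x M := hm5 _ _ (hred x)
    have h2 : out (Ideal.Quotient.mk _ x) - κ ∈ q₀ * ⊤ ↔ x - κ ∈ q₀ := by
      rw [Ideal.mul_top]
      have hle : M * q₀ * ⊤ ≤ q₀ := by
        rw [Ideal.mul_top]; exact Ideal.mul_le_right (I := M) (J := q₀)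
      have h3 : out (Ideal.Quotient.mk _ x) - x ∈ q₀ := hle (hred x)
      have h4 : out (Ideal.Quotient.mk _ x) - κ = (out (Ideal.Quotient.mk _ x) - x) + (x - κ) := by ring
      rw [h4]
      exact Submodule.add_mem_iff_right _ h3
    have h5 : nm (⊤ : Ideal (𝓞 K)) = 1 := by simp [nm, Ideal.absNorm_top]
    simp only [hg, h1, h2, h5, mul_one]
  have key := hslot (M * q₀ * ⊤) hT (fun q => (g q : ℂ)) (by
      rw [← Complex.ofReal_sum]
      rw [show ∑ q, g q = 0 from hm1 κ hκ]; simp) (by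
      intro q
      rw [Complex.norm_real, Real.norm_eq_abs]
      exact hg2 q) _ (hLip (D • w)) D ((le_max_right _ _).trans hD) S (by
      intro x hx1 hx2
      rw [hS x]
      have h1 : g (Ideal.Quotient.mk _ x) ≠ 0 := by
        intro h; apply hx1; simp only [h, Complex.ofReal_zero]
      rw [hgx] at h1
      refine ⟨?_, ?_⟩
      · by_contra h
        apply h1
        rw [ind_f (fun h' => h h'.1), ind_f h]
        simp
      · intro h
        apply hx2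
        simp only [h, zero_div, zero_mul])
  have e1 : ∑ x ∈ S, (g (Ideal.Quotient.mk _ x) : ℂ) *
      ((ρ (D⁻¹ • E (x : K)) / nrm (D⁻¹ • E (x : K)) * Ψ ((D • w) * (D⁻¹ • E (x : K))) : ℝ) : ℂ) =
      ((D ^ Module.finrank ℚ K * (Z * (∑ x ∈ S, pr (wl ρ D) S x * Ψ (w * E (x : K)) *
        ind (x - κ ∈ q₀) - (∑ x ∈ S, pr (wl ρ D) S x * Ψ (w * E (x : K))) / phi q₀)) : ℝ) : ℂ) := by
    have h1 : Z * (∑ x ∈ S, pr (wl ρ D) S x * Ψ (w * E (x : K)) *
        ind (x - κ ∈ q₀) - (∑ x ∈ S, pr (wl ρ D) S x * Ψ (w * E (x : K))) / phi q₀) =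
        ∑ x ∈ S, g (Ideal.Quotient.mk _ x) * (wl ρ D x * Ψ (w * E (x : K))) := by
      rw [sum_div, ← sum_sub_distrib, mul_sum]
      refine sum_congr rfl fun x hx => ?_
      have hcx := ((hS x).1 hx).1
      rw [hgx, ind_t hcx]
      have h2 : ind (cop x M ∧ x - κ ∈ q₀) = ind (x - κ ∈ q₀) := by
        by_cases h : x - κ ∈ q₀
        · rw [ind_t h, ind_t ⟨hcx, h⟩]
        · rw [ind_f h, ind_f (fun h' => h h'.2)]
      rw [h2, pr, ← hZ]
      field_simp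
    rw [h1, mul_sum, Complex.ofReal_sum]
    refine sum_congr rfl fun x _ => ?_
    rw [scale hD0]
    push_cast
    ring
  rw [e1, Complex.norm_real, Real.norm_eq_abs, abs_mul, abs_mul, abs_of_pos hZ0,
    abs_of_pos (by positivity : 0 < D ^ Module.finrank ℚ K)] at key
  set X := |∑ x ∈ S, pr (wl ρ D) S x * Ψ (w * E (x : K)) *
        ind (x - κ ∈ q₀) - (∑ x ∈ S, pr (wl ρ D) S x * Ψ (w * E (x : K))) / phi q₀| with hXd
  have hX0 : 0 ≤ X := abs_nonneg _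
  have h2 : Z * X ≤ C * nm (M * q₀ * ⊤) / D := by
    have h3 : D ^ Module.finrank ℚ K * (Z * X) ≤
        D ^ Module.finrank ℚ K * (C * nm (M * q₀ * ⊤) / D) := by
      refine key.trans (le_of_eq ?_)
      ring
    exact le_of_mul_le_mul_left h3 (by positivity)
  have h3 : 1 / CZ * X ≤ C * nm (M * q₀ * ⊤) / D :=
    (mul_le_mul_of_nonneg_right hZ1 hX0).trans h2
  have h4 : X = CZ * (1 / CZ * X) := by
    rw [one_div, mul_inv_cancel_left₀ (lt_of_lt_of_le one_pos hCZ).ne']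
  rw [h4]
  calc CZ * (1 / CZ * X) ≤ CZ * (C * nm (M * q₀ * ⊤) / D) :=
        mul_le_mul_of_nonneg_left h3 (by linarith)
    _ = CZ * (C * nm (M * q₀ * ⊤)) / D := by ring

theorem twistXK : AbelK K → MeanK K → LipX K → LatK K → DivXK K → TwistXK K := by
  classical
  intro hA hMe hX hL hDv ρ Ψ M q₀ hρ hΨ hM0 hq0 hPD
  obtain ⟨L, B, hL0, hB0, hLip, -⟩ := hX ρ Ψ hρ hΨ
  obtain ⟨CZ, DZ, hCZ, hDZ, hdiv⟩ := hDv ρ M hρ hM0
  obtain ⟨C, hC, hslot⟩ := slot hA hL hL0 hB0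
  have hM1 : 1 ≤ nm M := nm_ge hM0
  have hq1 : 1 ≤ nm q₀ := nm_ge hq0
  refine ⟨CZ * (C * (nm M * nm q₀)), DZ, ?_, hDZ, ?_⟩
  · have h1 : 1 ≤ nm M * nm q₀ := by nlinarith
    have : 1 ≤ C * (nm M * nm q₀) := by nlinarith
    nlinarith
  intro D hD S hS κ w h χ hh0 hhM hcond hχ1 hχn
  have hD0 : 0 < D := by linarith
  have hh1 : 1 ≤ nm h := nm_ge hh0
  have hT : M * q₀ * h ≠ ⊥ := mul_ne_zero (mul_ne_zero hM0 hq0) hh0
  have hTn : nm (M * q₀ * h) = nm M * nm q₀ * nm h := by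
    simp [nm, map_mul]
  obtain ⟨-, hZ1, -, -⟩ := hdiv D hD S hS
  set Z := ∑ y ∈ S, wl ρ D y with hZ
  have hZ0 : 0 < Z := lt_of_lt_of_le (by positivity) hZ1
  by_cases hbig : C * nm (M * q₀ * h) ≤ D
  swap
  · have h1 : ‖∑ x ∈ S, ((pr (wl ρ D) S x * Ψ (w * E (x : K)) * ind (x - κ ∈ q₀) : ℝ) : ℂ) * χ x‖
        ≤ 1 := by
      refine (norm_sum_le _ _).trans ?_
      have h2 : ∀ x ∈ S, ‖((pr (wl ρ D) S x * Ψ (w * E (x : K)) * ind (x - κ ∈ q₀) : ℝ) : ℂ) * χ x‖ ≤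
          wl ρ D x / Z := by
        intro x _
        have hp : 0 ≤ wl ρ D x / Z := div_nonneg (wl_nn hρ D x) hZ0.le
        rw [norm_mul, hχ1, mul_one, Complex.norm_real, Real.norm_eq_abs, abs_mul, abs_mul,
          abs_of_nonneg (ind_nn _), abs_of_nonneg (hΨ.1 _).1, pr, ← hZ, abs_of_nonneg hp]
        have h3 := (hΨ.1 (w * E (x : K))).2
        have h4 := ind_le (x - κ ∈ q₀)
        have h5 : wl ρ D x / Z * Ψ (w * E (x : K)) ≤ wl ρ D x / Z * 1 :=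
          mul_le_mul_of_nonneg_left h3 hp
        have h6 : wl ρ D x / Z * Ψ (w * E (x : K)) * ind (x - κ ∈ q₀) ≤
            wl ρ D x / Z * Ψ (w * E (x : K)) * 1 :=
          mul_le_mul_of_nonneg_left h4 (mul_nonneg hp (hΨ.1 _).1)
        linarith
      refine (sum_le_sum h2).trans ?_
      rw [← sum_div, ← hZ, div_self hZ0.ne']
    refine h1.trans ?_
    rw [le_div_iff₀ hD0, one_mul]
    push Not at hbig
    rw [hTn] at hbig
    have h3 : 0 < C * (nm M * nm q₀ * nm h) := by positivity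
    calc D ≤ C * (nm M * nm q₀ * nm h) := hbig.le
      _ ≤ CZ * (C * (nm M * nm q₀ * nm h)) := by nlinarith
      _ = CZ * (C * (nm M * nm q₀)) * nm h := by ring
  let _ : Fintype (𝓞 K ⧸ M * q₀ * h) := fq hT
  set out : 𝓞 K ⧸ M * q₀ * h → 𝓞 K := Function.surjInv Ideal.Quotient.mk_surjective with hout
  have hout1 : ∀ q, Ideal.Quotient.mk (M * q₀ * h) (out q) = q :=
    Function.surjInv_eq Ideal.Quotient.mk_surjective
  obtain ⟨-, -, hm4, -, hm5⟩ := hMe M q₀ h hM0 hq0 hh0 hPD hhM out hout1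
  have hred : ∀ x : 𝓞 K, out (Ideal.Quotient.mk _ x) - x ∈ M * q₀ * h := fun x =>
    Ideal.Quotient.eq.1 (hout1 _)
  have hleq : M * q₀ * h ≤ q₀ :=
    (Ideal.mul_le_left (I := M * q₀) (J := h)).trans (Ideal.mul_le_right (I := M) (J := q₀))
  set g : 𝓞 K ⧸ M * q₀ * h → ℂ := fun q =>
    ((ind (cop (out q) M ∧ out q - κ ∈ q₀) : ℝ) : ℂ) * χ (out q) with hg
  have hg2 : ∀ q, ‖g q‖ ≤ 2 := by
    intro q
    rw [hg]
    simp only
    rw [norm_mul, hχ1, mul_one, Complex.norm_real, Real.norm_eq_abs, abs_of_nonneg (ind_nn _)]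
    have := ind_le (cop (out q) M ∧ out q - κ ∈ q₀)
    linarith
  have hχr : ∀ x : 𝓞 K, χ (out (Ideal.Quotient.mk _ x)) = χ x := by
    intro x
    have h1 : out (Ideal.Quotient.mk _ x) - x ∈ cond χ :=
      hcond (Ideal.mul_le_right (I := M * q₀) (J := h) (hred x))
    have h2 : χ (1 * (out (Ideal.Quotient.mk (M * q₀ * h) x) - x)) = 1 := h1 1
    rw [one_mul] at h2
    have h3 : out (Ideal.Quotient.mk _ x) = (out (Ideal.Quotient.mk _ x) - x) + x := by ring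
    rw [h3, AddChar.map_add_eq_mul, h2, one_mul]
  have hgx : ∀ x : 𝓞 K, g (Ideal.Quotient.mk _ x) =
      ((ind (cop x M ∧ x - κ ∈ q₀) : ℝ) : ℂ) * χ x := by
    intro x
    have h1 : cop (out (Ideal.Quotient.mk _ x)) M ↔ cop x M := hm5 _ _ (hred x)
    have h2 : out (Ideal.Quotient.mk _ x) - κ ∈ q₀ ↔ x - κ ∈ q₀ := by
      have h4 : out (Ideal.Quotient.mk _ x) - κ = (out (Ideal.Quotient.mk _ x) - x) + (x - κ) := by ring
      rw [h4]
      exact Submodule.add_mem_iff_right _ (hleq (hred x))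
    simp only [hg, h1, h2, hχr]
  have key := hslot (M * q₀ * h) hT g (hm4 κ χ hcond hχn) hg2 _ (hLip (D • w)) D hbig S (by
      intro x hx1 hx2
      rw [hS x]
      rw [hgx] at hx1
      refine ⟨?_, ?_⟩
      · by_contra h'
        apply hx1
        rw [ind_f (fun h'' => h' h''.1)]
        simp
      · intro h'
        apply hx2
        simp only [h', zero_div, zero_mul])
  have e1 : ∑ x ∈ S, g (Ideal.Quotient.mk _ x) *
      ((ρ (D⁻¹ • E (x : K)) / nrm (D⁻¹ • E (x : K)) * Ψ ((D • w) * (D⁻¹ • E (x : K))) : ℝ) : ℂ) =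
      ((D ^ Module.finrank ℚ K * Z : ℝ) : ℂ) * ∑ x ∈ S, ((pr (wl ρ D) S x * Ψ (w * E (x : K)) *
        ind (x - κ ∈ q₀) : ℝ) : ℂ) * χ x := by
    rw [mul_sum]
    refine sum_congr rfl fun x hx => ?_
    have hcx := ((hS x).1 hx).1
    have h2 : ind (cop x M ∧ x - κ ∈ q₀) = ind (x - κ ∈ q₀) := by
      by_cases h : x - κ ∈ q₀
      · rw [ind_t h, ind_t ⟨hcx, h⟩]
      · rw [ind_f h, ind_f (fun h' => h h'.2)]
    have h3 : wl ρ D x = Z * pr (wl ρ D) S x := by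
      rw [pr, ← hZ]; field_simp
    rw [hgx, scale hD0, h2, h3]
    push_cast
    ring
  rw [e1, norm_mul, Complex.norm_real, Real.norm_eq_abs, abs_mul, abs_of_pos hZ0,
    abs_of_pos (by positivity : 0 < D ^ Module.finrank ℚ K)] at key
  set X := ‖∑ x ∈ S, ((pr (wl ρ D) S x * Ψ (w * E (x : K)) *
        ind (x - κ ∈ q₀) : ℝ) : ℂ) * χ x‖ with hXd
  have hX0 : 0 ≤ X := norm_nonneg _
  have h2 : Z * X ≤ C * nm (M * q₀ * h) / D := by
    have h3 : D ^ Module.finrank ℚ K * (Z * X) ≤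
        D ^ Module.finrank ℚ K * (C * nm (M * q₀ * h) / D) := by
      rw [← mul_assoc]
      refine key.trans (le_of_eq ?_)
      ring
    exact le_of_mul_le_mul_left h3 (by positivity)
  have h3 : 1 / CZ * X ≤ C * nm (M * q₀ * h) / D :=
    (mul_le_mul_of_nonneg_right hZ1 hX0).trans h2
  have h4 : X = CZ * (1 / CZ * X) := by
    rw [one_div, mul_inv_cancel_left₀ (lt_of_lt_of_le one_pos hCZ).ne']
  rw [h4]
  calc CZ * (1 / CZ * X) ≤ CZ * (C * nm (M * q₀ * h) / D) :=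
        mul_le_mul_of_nonneg_left h3 (by linarith)
    _ = CZ * (C * (nm M * nm q₀)) * nm h / D := by rw [hTn]; ring

end Pool.Agent.T9h65.NF
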